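import Pool.Agent.helper38.OV.Spec

/-!
# Row K4G of project OV (MP_bf63dc_nt): few 4-cliques (after helper78/OM/K4B)
-/

set_option autoImplicit false

namespace Pool.Agent.OV

open Finset Real Pool.Agent.AT Pool.Agent.helper85.FC Pool.Agent.OM

/-- the linear form of a point -/
def K4G_f (a b L H : ℕ) (z : ℤ) (p : (ℕ × ℕ) × ℕ) : ℕ × ℤ :=
  (p.1.1 * (a ^ p.1.2 * b ^ (L - p.1.2)), 1 + H * ((p.2 : ℤ) - z))

theorem K4G_split {a b L i j : ℕ} (hj : j < i) (hi : i ≤ L) :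
    a ^ i * b ^ (L - i) = a ^ j * b ^ (L - i) * a ^ (i - j) ∧ a ^ j * b ^ (L - j) = a ^ j * b ^ (L - i) * b ^ (i - j) := by
  constructor
  · have e1 : i = j + (i - j) := by omega
    calc a ^ i * b ^ (L - i) = a ^ (j + (i - j)) * b ^ (L - i) := by rw [← e1]
      _ = _ := by rw [pow_add]; ring
  · have e1 : L - j = (L - i) + (i - j) := by omega
    rw [e1, pow_add]
    ring

theorem K4G_pair {a b L H : ℕ} (z : ℤ) (ha : 1 ≤ a) (hb : 1 ≤ b) {p p' : (ℕ × ℕ) × ℕ} (h : p'.1.2 < p.1.2)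
    (hp : p.1.2 ≤ L) (hs : 1 ≤ p.1.1) (hs' : 1 ≤ p'.1.1) : Pair (K4G_f a b L H z p) (K4G_f a b L H z p') ↔
      TrueCase (nb a b p.1.1 p'.1.1 (p.1.2 - p'.1.2)) (na a b p.1.1 p'.1.1 (p.1.2 - p'.1.2))
        ((nb a b p.1.1 p'.1.1 (p.1.2 - p'.1.2) : ℤ) - na a b p.1.1 p'.1.1 (p.1.2 - p'.1.2) +
          H * ((nb a b p.1.1 p'.1.1 (p.1.2 - p'.1.2) : ℤ) * p.2 - (na a b p.1.1 p'.1.1 (p.1.2 - p'.1.2) : ℤ) * p'.2 -
            ((nb a b p.1.1 p'.1.1 (p.1.2 - p'.1.2) : ℤ) - na a b p.1.1 p'.1.1 (p.1.2 - p'.1.2)) * z)) := by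
  obtain ⟨e1, e2⟩ := K4G_split (a := a) (b := b) h hp
  obtain ⟨G, hG⟩ : ∃ G : ℕ, G = a ^ p'.1.2 * b ^ (L - p.1.2) := ⟨_, rfl⟩
  obtain ⟨m, hm⟩ : ∃ m : ℕ, m = p.1.2 - p'.1.2 := ⟨_, rfl⟩
  rw [← hG, ← hm] at e1 e2
  have hG0 : 0 < G := by
    rw [hG]
    positivity
  obtain ⟨g, hg⟩ : ∃ g : ℕ, g = Nat.gcd (p.1.1 * a ^ m) (p'.1.1 * b ^ m) := ⟨_, rfl⟩
  have hg0 : 0 < g := by
    rw [hg]
    exact Nat.gcd_pos_of_pos_left _ (by positivity)
  obtain ⟨A, hA⟩ : ∃ A : ℕ, A = na a b p.1.1 p'.1.1 m := ⟨_, rfl⟩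
  obtain ⟨B, hB⟩ : ∃ B : ℕ, B = nb a b p.1.1 p'.1.1 m := ⟨_, rfl⟩
  have hAg : p.1.1 * a ^ m = A * g := by
    rw [hA, na, hg]
    exact (Nat.div_mul_cancel (Nat.gcd_dvd_left _ _)).symm
  have hBg : p'.1.1 * b ^ m = B * g := by
    rw [hB, nb, hg]
    exact (Nat.div_mul_cancel (Nat.gcd_dvd_right _ _)).symm
  have f1 : p.1.1 * (a ^ p.1.2 * b ^ (L - p.1.2)) = A * (G * g) := by
    rw [e1]
    calc p.1.1 * (G * a ^ m) = G * (p.1.1 * a ^ m) := by ring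
      _ = A * (G * g) := by rw [hAg]; ring
  have f2 : p'.1.1 * (a ^ p'.1.2 * b ^ (L - p'.1.2)) = B * (G * g) := by
    rw [e2]
    calc p'.1.1 * (G * b ^ m) = G * (p'.1.1 * b ^ m) := by ring
      _ = B * (G * g) := by rw [hBg]; ring
  have hcop : Nat.gcd A B = 1 := by
    have h1 : Nat.gcd (A * g) (B * g) = g := by rw [← hAg, ← hBg, ← hg]
    rw [Nat.gcd_mul_right] at h1
    exact Nat.eq_of_mul_eq_mul_right hg0 (by rw [h1, one_mul])
  have hgcd : Nat.gcd (A * (G * g)) (B * (G * g)) = G * g := by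
    rw [Nat.gcd_mul_right, hcop, one_mul]
  have hGg : 0 < G * g := Nat.mul_pos hG0 hg0
  unfold Pair K4G_f
  simp only
  rw [f1, f2, hgcd, ← hm, ← hA, ← hB, Nat.mul_div_cancel _ hGg, Nat.mul_div_cancel _ hGg]
  have e3 : (((B * (G * g) : ℕ) : ℤ) * (1 + H * ((p.2 : ℤ) - z)) - ((A * (G * g) : ℕ) : ℤ) * (1 + H * ((p'.2 : ℤ) - z))) /
      ((G * g : ℕ) : ℤ) = (B : ℤ) - A + H * ((B : ℤ) * p.2 - (A : ℤ) * p'.2 - ((B : ℤ) - A) * z) := by
    have hGz : ((G * g : ℕ) : ℤ) ≠ 0 := by exact_mod_cast hGg.ne'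
    apply Int.ediv_eq_of_eq_mul_right hGz
    push_cast
    ring
  rw [e3]

theorem K4G_inj {a b L Y H : ℕ} {z : ℤ} {S : Finset ℕ} (ha : 1 ≤ a) (hb : 1 ≤ b) (hab : a ≤ b)
    (hS : ∀ s ∈ S, ∀ s' ∈ S, s * a < s' * b) (hH : 1 ≤ H) :
    Set.InjOn (K4G_f a b L H z) (VG S L Y : Set ((ℕ × ℕ) × ℕ)) := by
  have key : ∀ s ∈ S, ∀ s' ∈ S, ∀ i j, j < i → i ≤ L →
      s * (a ^ i * b ^ (L - i)) ≠ s' * (a ^ j * b ^ (L - j)) := by
    intro s hs s' hs' i j hji hi h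
    obtain ⟨e1, e2⟩ := K4G_split (a := a) (b := b) hji hi
    rw [e1, e2] at h
    have h1 : 0 < a ^ j * b ^ (L - i) := by positivity
    have h2 : s * a ^ (i - j) = s' * b ^ (i - j) := by
      apply Nat.eq_of_mul_eq_mul_left h1
      calc a ^ j * b ^ (L - i) * (s * a ^ (i - j)) = s * (a ^ j * b ^ (L - i) * a ^ (i - j)) := by ring
        _ = s' * (a ^ j * b ^ (L - i) * b ^ (i - j)) := h
        _ = a ^ j * b ^ (L - i) * (s' * b ^ (i - j)) := by ring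
    obtain ⟨m, hm⟩ : ∃ m, i - j = m + 1 := ⟨i - j - 1, by omega⟩
    rw [hm] at h2
    have h3 : s * a ^ (m + 1) < s' * b ^ (m + 1) := by
      have h4 : a ^ m ≤ b ^ m := Nat.pow_le_pow_left hab m
      have h5 : 0 < a ^ m := by positivity
      calc s * a ^ (m + 1) = (s * a) * a ^ m := by ring
        _ < (s' * b) * a ^ m := Nat.mul_lt_mul_of_pos_right (hS s hs s' hs') h5
        _ ≤ (s' * b) * b ^ m := Nat.mul_le_mul_left _ h4
        _ = s' * b ^ (m + 1) := by ring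
    omega
  intro p hp p' hp' h
  obtain ⟨hp0, hpx⟩ := Finset.mem_product.1 (Finset.mem_coe.1 hp)
  obtain ⟨hps, hpi⟩ := Finset.mem_product.1 hp0
  obtain ⟨hp0', hpx'⟩ := Finset.mem_product.1 (Finset.mem_coe.1 hp')
  obtain ⟨hps', hpi'⟩ := Finset.mem_product.1 hp0'
  rw [Finset.mem_range] at hpi hpi'
  have h1 : p.1.1 * (a ^ p.1.2 * b ^ (L - p.1.2)) = p'.1.1 * (a ^ p'.1.2 * b ^ (L - p'.1.2)) := congrArg Prod.fst h
  have h2 : (1 : ℤ) + H * ((p.2 : ℤ) - z) = 1 + H * ((p'.2 : ℤ) - z) := congrArg Prod.snd h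
  have h3 : p.1.2 = p'.1.2 := by
    rcases lt_trichotomy p.1.2 p'.1.2 with h4 | h4 | h4
    · exact absurd h1.symm (key _ hps' _ hps _ _ h4 hpi'.le)
    · exact h4
    · exact absurd h1 (key _ hps _ hps' _ _ h4 hpi.le)
  have h5 : p.1.1 = p'.1.1 := by
    rw [h3] at h1
    have h6 : 0 < a ^ p'.1.2 * b ^ (L - p'.1.2) := by positivity
    exact Nat.eq_of_mul_eq_mul_right h6 h1
  have h4 : p.2 = p'.2 := by
    have e1 : (H : ℤ) ≠ 0 := by
      have : 0 < H := hH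
      exact_mod_cast this.ne'
    have e2 : (H : ℤ) * ((p.2 : ℤ) - z) = H * ((p'.2 : ℤ) - z) := by linarith
    have e3 := mul_left_cancel₀ e1 e2
    have e4 : (p.2 : ℤ) = p'.2 := by linarith
    exact_mod_cast e4
  exact Prod.ext (Prod.ext h5 h3) h4

theorem K4G_kr (h1 : PSY_stmt) {a b L H : ℕ} {z : ℤ} (ha : 1 ≤ a) (hb : 1 ≤ b) {p p' : (ℕ × ℕ) × ℕ}
    (hp : p.1.2 ≤ L) (hp' : p'.1.2 ≤ L) (hs : 1 ≤ p.1.1) (hs' : 1 ≤ p'.1.1) :
    kg a b (WG H a b z) p p' = 0 ∨ (kg a b (WG H a b z) p p' = 1 ∧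
      ¬ Pair (K4G_f a b L H z p) (K4G_f a b L H z p') ∧
      ¬ Pair (K4G_f a b L H z p') (K4G_f a b L H z p)) := by
  unfold kg
  split_ifs with c1 c2
  · have e := K4G_pair (H := H) z ha hb c1 hp hs hs'
    unfold WG BG
    split_ifs with c3
    · exact Or.inl rfl
    · right
      rw [← e] at c3
      exact ⟨rfl, c3, fun h => c3 (h1.1 _ _ h)⟩
  · have e := K4G_pair (H := H) z ha hb c2 hp' hs' hs
    unfold WG BG
    split_ifs with c3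
    · exact Or.inl rfl
    · right
      rw [← e] at c3
      exact ⟨rfl, fun h => c3 (h1.1 _ _ h), c3⟩
  · exact Or.inl rfl

theorem K4G_cop {d H : ℕ} (h : d ∣ H) (t : ℤ) : IsCoprime (d : ℤ) (1 + H * t) := by
  obtain ⟨k, rfl⟩ := h
  refine ⟨-((k : ℤ) * t), 1, ?_⟩
  push_cast
  ring

theorem K4G_good {a b L H : ℕ} {z : ℤ} (ha : 1 ≤ a) (hb : 1 ≤ b) (h6 : 6 ∣ H) (haH : a ∣ H) (hbH : b ∣ H)
    (p : (ℕ × ℕ) × ℕ) (hs : 1 ≤ p.1.1) (hsH : p.1.1 ∣ H) : 0 < (K4G_f a b L H z p).1 ∧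
    IsCoprime ((K4G_f a b L H z p).1 : ℤ) (K4G_f a b L H z p).2 ∧ IsCoprime (6 : ℤ) (K4G_f a b L H z p).2 := by
  refine ⟨?_, ?_, ?_⟩
  · show 0 < p.1.1 * (a ^ p.1.2 * b ^ (L - p.1.2))
    positivity
  · show IsCoprime ((p.1.1 * (a ^ p.1.2 * b ^ (L - p.1.2)) : ℕ) : ℤ) (1 + H * ((p.2 : ℤ) - z))
    push_cast
    apply IsCoprime.mul_left (K4G_cop hsH _)
    apply IsCoprime.mul_left
    · exact IsCoprime.pow_left (K4G_cop haH _)
    · exact IsCoprime.pow_left (K4G_cop hbH _)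
  · show IsCoprime (6 : ℤ) (1 + H * ((p.2 : ℤ) - z))
    exact K4G_cop (d := 6) h6 _

open Classical in
theorem K4G_gen {α : Type} (h2 : ADV_stmt) {C δ : ℝ}
    (hQ : ∀ (F : Fin 4 → Finset (ℕ × ℤ)) (L : ℕ), 1 ≤ L → (∀ i, L ≤ #(F i)) →
      (∀ i, ∀ f ∈ F i, 0 < f.1) →
      (#{f ∈ Fintype.piFinset F | Adm f ∧ ∀ i j, i ≠ j → ¬ Pair (f i) (f j)} : ℝ) ≤ C * (∏ i, (#(F i) : ℝ)) * (L : ℝ) ^ (-δ))
    (V : Finset α) (U : α → α → ℝ) (F : α → ℕ × ℤ) (hV : 1 ≤ #V) (hinj : Set.InjOn F (V : Set α))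
    (hgood : ∀ p ∈ V, 0 < (F p).1 ∧ IsCoprime ((F p).1 : ℤ) (F p).2 ∧ IsCoprime (6 : ℤ) (F p).2)
    (hU' : ∀ p ∈ V, ∀ p' ∈ V, U p p' = 0 ∨ (U p p' = 1 ∧ ¬ Pair (F p) (F p') ∧ ¬ Pair (F p') (F p))) :
    K4 V U ≤ C * (#V : ℝ) ^ 4 * (#V : ℝ) ^ (-δ) := by
  have hcard : #(V.image F) = #V := Finset.card_image_of_injOn hinj
  have hQ1 := hQ (fun _ => V.image F) (#V) hV (fun _ => hcard.ge) (by
    intro _ f hf
    obtain ⟨p, hp, rfl⟩ := Finset.mem_image.1 hf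
    exact (hgood p hp).1)
  have e3 : ∏ _i : Fin 4, (((#(V.image F) : ℕ) : ℝ)) = (#V : ℝ) ^ 4 := by
    rw [Finset.prod_const, Finset.card_univ, Fintype.card_fin, hcard]
  rw [e3] at hQ1
  refine le_trans ?_ hQ1
  have step1 : K4 V U ≤ ∑ t ∈ V ×ˢ V ×ˢ V ×ˢ V, if (U t.1 t.2.1 ≠ 0 ∧ U t.1 t.2.2.1 ≠ 0 ∧ U t.1 t.2.2.2 ≠ 0 ∧
      U t.2.1 t.2.2.1 ≠ 0 ∧ U t.2.1 t.2.2.2 ≠ 0 ∧ U t.2.2.1 t.2.2.2 ≠ 0) then (1 : ℝ) else 0 := by
    have e : K4 V U = ∑ t ∈ V ×ˢ V ×ˢ V ×ˢ V, U t.1 t.2.1 * U t.1 t.2.2.1 * U t.1 t.2.2.2 * U t.2.1 t.2.2.1 *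
        U t.2.1 t.2.2.2 * U t.2.2.1 t.2.2.2 := by
      unfold K4
      rw [Finset.sum_product]
      refine Finset.sum_congr rfl fun x _ => ?_
      rw [Finset.sum_product]
      refine Finset.sum_congr rfl fun y _ => ?_
      rw [Finset.sum_product]
    rw [e]
    refine Finset.sum_le_sum fun t ht => ?_
    obtain ⟨m1, ht1⟩ := Finset.mem_product.1 ht
    obtain ⟨m2, ht2⟩ := Finset.mem_product.1 ht1
    obtain ⟨m3, m4⟩ := Finset.mem_product.1 ht2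
    split_ifs with c
    · obtain ⟨c1, c2, c3, c4, c5, c6⟩ := c
      rw [((hU' _ m1 _ m2).resolve_left c1).1, ((hU' _ m1 _ m3).resolve_left c2).1,
        ((hU' _ m1 _ m4).resolve_left c3).1, ((hU' _ m2 _ m3).resolve_left c4).1,
        ((hU' _ m2 _ m4).resolve_left c5).1, ((hU' _ m3 _ m4).resolve_left c6).1]
      norm_num
    · apply le_of_eq
      simp only [mul_eq_zero]
      tauto
  refine le_trans step1 ?_
  rw [Finset.sum_boole]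
  refine Nat.cast_le.2 ?_
  refine Finset.card_le_card_of_injOn (fun t => ![F t.1, F t.2.1, F t.2.2.1, F t.2.2.2]) ?_ ?_
  · intro t ht
    obtain ⟨hm, c1, c2, c3, c4, c5, c6⟩ := Finset.mem_filter.1 (Finset.mem_coe.1 ht)
    obtain ⟨m1, ht1⟩ := Finset.mem_product.1 hm
    obtain ⟨m2, ht2⟩ := Finset.mem_product.1 ht1
    obtain ⟨m3, m4⟩ := Finset.mem_product.1 ht2
    have r1 := ((hU' _ m1 _ m2).resolve_left c1).2
    have r2 := ((hU' _ m1 _ m3).resolve_left c2).2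
    have r3 := ((hU' _ m1 _ m4).resolve_left c3).2
    have r4 := ((hU' _ m2 _ m3).resolve_left c4).2
    have r5 := ((hU' _ m2 _ m4).resolve_left c5).2
    have r6 := ((hU' _ m3 _ m4).resolve_left c6).2
    apply Finset.mem_coe.2
    rw [Finset.mem_filter, Fintype.mem_piFinset]
    refine ⟨?_, h2 _ ?_, ?_⟩
    · intro i
      fin_cases i
      · exact Finset.mem_image_of_mem _ m1
      · exact Finset.mem_image_of_mem _ m2
      · exact Finset.mem_image_of_mem _ m3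
      · exact Finset.mem_image_of_mem _ m4
    · intro i
      fin_cases i
      · exact hgood _ m1
      · exact hgood _ m2
      · exact hgood _ m3
      · exact hgood _ m4
    · intro i j hij
      fin_cases i <;> fin_cases j
      · exact absurd rfl hij
      · exact r1.1
      · exact r2.1
      · exact r3.1
      · exact r1.2
      · exact absurd rfl hij
      · exact r4.1
      · exact r5.1
      · exact r2.2
      · exact r4.2
      · exact absurd rfl hij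
      · exact r6.1
      · exact r3.2
      · exact r5.2
      · exact r6.2
      · exact absurd rfl hij
  · intro t ht t' ht' h
    have m := (Finset.mem_filter.1 (Finset.mem_coe.1 ht)).1
    have m' := (Finset.mem_filter.1 (Finset.mem_coe.1 ht')).1
    obtain ⟨m1, ht1⟩ := Finset.mem_product.1 m
    obtain ⟨m2, ht2⟩ := Finset.mem_product.1 ht1
    obtain ⟨m3, m4⟩ := Finset.mem_product.1 ht2
    obtain ⟨n1, hn1⟩ := Finset.mem_product.1 m'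
    obtain ⟨n2, hn2⟩ := Finset.mem_product.1 hn1
    obtain ⟨n3, n4⟩ := Finset.mem_product.1 hn2
    have h0 := congrFun h 0
    have h1' := congrFun h 1
    have h2' := congrFun h 2
    have h3' := congrFun h 3
    simp only [Matrix.cons_val_zero, Matrix.cons_val_one, Matrix.cons_val] at h0 h1' h2' h3'
    exact Prod.ext (hinj m1 n1 h0) (Prod.ext (hinj m2 n2 h1') (Prod.ext (hinj m3 n3 h2') (hinj m4 n4 h3')))

theorem K4G (hPSY : PSY_stmt) (hADV : ADV_stmt) : K4G_stmt := by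
  rintro ⟨C, δ, hC, hδ, -, hQ⟩
  refine ⟨C, δ, hC, hδ, ?_⟩
  intro a b L Y H z S ha _ hL hY hSne hS1 hS2 hH h6 haH hbH hsH
  obtain ⟨s0, hs0⟩ := hSne
  have hlt : a < b := by
    have h1 := hS2 s0 hs0 s0 hs0
    exact lt_of_mul_lt_mul_left h1 (Nat.zero_le _)
  have hb : 1 ≤ b := le_trans ha hlt.le
  have hS0 : 1 ≤ #S := Finset.card_pos.2 ⟨s0, hs0⟩
  have hcV : #(VG S L Y) = #S * (L * Y) := by
    rw [VG, Finset.card_product, Finset.card_product, Finset.card_range, Finset.card_range, mul_assoc]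
  have hmem : ∀ p ∈ VG S L Y, p.1.1 ∈ S ∧ p.1.2 ≤ L := by
    intro p hp
    obtain ⟨hp0, -⟩ := Finset.mem_product.1 hp
    obtain ⟨hp1, hp2⟩ := Finset.mem_product.1 hp0
    exact ⟨hp1, (Finset.mem_range.1 hp2).le⟩
  have h := K4G_gen hADV hQ (VG S L Y) (kg a b (WG H a b z)) (K4G_f a b L H z)
    (by rw [hcV]; exact Nat.mul_pos hS0 (Nat.mul_pos hL hY)) (K4G_inj ha hb hlt.le hS2 hH)
    (fun p hp => K4G_good ha hb h6 haH hbH p (hS1 _ (hmem p hp).1) (hsH _ (hmem p hp).1))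
    (fun p hp p' hp' => K4G_kr hPSY ha hb (hmem p hp).2 (hmem p' hp').2 (hS1 _ (hmem p hp).1)
      (hS1 _ (hmem p' hp').1))
  rw [hcV] at h
  push_cast at h
  exact h

end Pool.Agent.OV
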